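import Pool.Agent.X39.Near.Rat
import Pool.Agent.Results.MP_b7926e_nt.FewExceptionalParameters

/-!
# MP_b7926e_nt: no atypical intersections with torsion cosets at the convergents of almost all real numbers

Let `X_t`, `t ∈ ℂ`, be a one-parameter family of subvarieties of the torus, in general position at some
algebraic parameters in the sense of tropical geometry (`FewExceptionalParameters`). Outside a set of
real numbers `ξ` of Hausdorff dimension at most `1 / ω`, for all but finitely many rational numbers `t`
with `|t - ξ| ≤ A den(t) ^ (-ω)`, the set `X_t` has no atypical intersection with the cosets of all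
algebraic subgroups by all points with coordinates which are units over `Γ`. For `ω = 2`: for all
irrational `ξ` outside a set of dimension at most `1 / 2`, from some point on all convergents `t` of the
continued fraction of `ξ` have this property.
-/

set_option autoImplicit false

open MeasureTheory

namespace Pool.Agent.Results.MP_b7926e_nt.ConvergentsOfRealNumbers

open FewExceptionalParameters

/-- **Theorem.** Let `X_t` (`member A c t`) be a family of subsets of the torus `(ℂ^×)^n` given by `m`
Laurent polynomials with coefficients `c_jβ ∈ ℂ[t]`, `β ∈ A_j`, and let `α_l` be algebraic numbers such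
that no linear subspace of `ℚ^n` of dimension less than `r` meets the tropicalizations of the family at
all `α_l`. Let `Γ` be a finite set of complex numbers. (1) For each `ω > 0` there is a set `E` of real
numbers of Hausdorff dimension at most `1 / ω` such that for all `ξ` outside `E` and all `A` all but
finitely many of the rational numbers `t` with `|t - ξ| ≤ A den(t) ^ (-ω)` have the property that `X_t`
has no atypical intersection with the cosets of the algebraic subgroups by the points whose coordinates
are units over `Γ`. (2) For almost all `ξ` this holds for all `ω > 1` and all `A`. (3) For all irrational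
`ξ` outside a set of dimension at most `1 / 2` the convergents of `ξ` have this property from some point
on. -/
theorem result {n m M : ℕ} (r : ℕ) (A : Fin m → Finset (Fin n → ℤ)) (hA : ∀ j, (A j).Nonempty)
    (c : Fin m → (Fin n → ℤ) → Polynomial ℂ) (hc : ∀ j, ∀ β ∈ A j, c j β ≠ 0)
    (α : Fin M → ℂ) (hα : ∀ l, IsAlgebraic ℚ (α l))
    (hgen : ∀ L : Submodule ℚ (Fin n → ℚ), Module.finrank ℚ L < r →
      ∃ l, ∀ w ∈ L, w ∉ Trop A (order c (α l)))
    (Γ : Set ℂ) (hΓ : Γ.Finite) :
    (∀ ω : ℝ, 0 < ω → ∃ E : Set ℝ, dimH E ≤ ENNReal.ofReal (1 / ω) ∧ ∀ ξ : ℝ, ξ ∉ E → ∀ K : ℝ,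
      {t : ℚ | |(t : ℝ) - ξ| ≤ K * (t.den : ℝ) ^ (-ω) ∧
        ¬ NoAtypical r Γ (member A c (t : ℂ))}.Finite) ∧
    (∀ᵐ ξ : ℝ, ∀ ω : ℝ, 1 < ω → ∀ K : ℝ,
      {t : ℚ | |(t : ℝ) - ξ| ≤ K * (t.den : ℝ) ^ (-ω) ∧
        ¬ NoAtypical r Γ (member A c (t : ℂ))}.Finite) ∧
    ∃ E : Set ℝ, dimH E ≤ ENNReal.ofReal (1 / 2) ∧ ∀ ξ : ℝ, Irrational ξ → ξ ∉ E →
      ∃ n₀ : ℕ, ∀ k : ℕ, n₀ ≤ k → NoAtypical r Γ (member A c ((ξ.convergent k : ℚ) : ℂ)) := by
  obtain ⟨C, s, h⟩ := FewExceptionalParameters.result r A hA c hc α hα hgen Γ hΓ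
  exact Pool.Agent.X39.Near.pack (P := fun t : ℚ => NoAtypical r Γ (member A c (t : ℂ))) zero_le_one
    fun ω hω => Pool.Agent.X39.Near.nearDen {t : ℚ | ¬ NoAtypical r Γ (member A c (t : ℂ))} hω C s
      fun B v hB hv T hT => h B v hB hv T fun t ht => ⟨(hT t ht).1, (hT t ht).2.1, (hT t ht).2.2⟩

end Pool.Agent.Results.MP_b7926e_nt.ConvergentsOfRealNumbers
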