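import Pool.Agent.Results.MP_b7926e_nt.AlmostAllSUnitTranslates
import Pool.Agent.X67.LF.Main

/-!
# Translates of a subvariety of the torus at the small values of generic linear forms

Let `V` be an irreducible subvariety of the torus `(ℂ^×)^n`. There is a number `K` such that for all `N`, `t` with
`K t < N`, with `s = n N + n - 1 - t`, for all `θ, y ∈ ℝ ^ m`, `θ_i ≥ 0`, `θ_1 + ... + θ_m > s` and almost all systems
`A_1, ..., A_m` of linear forms in `N n` variables:

(1) for distinct primes `p_1, …, p_N`, for all but finitely many nonzero integral matrices `e` such that `A_i e` is within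
`|e| ^ (-θ_i)` of `y_i` modulo `1` for all `i`, the translate of `V` by the vector `(∏_i p_i ^ e_ij)_j` has no atypical
subvariety;

(2) for absolute values `v_1, …, v_N` of `ℂ` and all `B`, for all but finitely many of these `e` and ALL points
`g ∈ (ℂ^×)^n` with `|log v_i(g_j) - e_ij| ≤ B`, the translate `g V` has no atypical intersection with a coset bounded by
`B`.

By Dirichlet's theorem every system of `m` linear forms has infinitely many such `e` if `θ_1 + ... + θ_m = N n` and
`θ_i = N n / m`, so the statement is not empty if `t ≥ n`. The number of exceptions is from the starting result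
`AlmostAllSUnitTranslates`.
-/

set_option autoImplicit false

namespace Pool.Agent.Results.MP_b7926e_nt.SmallLinearForms

open Pool.Agent.Results.MP_b7926e_nt.NoAtypical (idealOf NoAtypicalSubvariety)
open Pool.Agent.Results.MP_b7926e_nt.AlmostAllSUnitTranslates (NoAtypicalWithin)
open Pool.Agent.X67.LF (size natAbs_le Sparse GoodAtSmallValues good_of_sparse)

/-- the translate of `V` by the vector `(∏_i p_i ^ e_ij)_j` has no atypical subvariety -/
def GoodTranslate {N n : ℕ} (V : Set (Fin n → ℂ)) (p : Fin N → ℕ) (e : Fin N × Fin n → ℤ) : Prop :=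
  NoAtypicalSubvariety (AlmostAllSUnitTranslates.translate (fun j => ∏ i, (p i : ℂ) ^ e (i, j)) V)

/-- for all `g` with `|log v_i(g_j) - e_ij| ≤ B` the translate `g V` has no atypical intersection with a coset bounded
by `B` -/
def GoodNear {N n : ℕ} (V : Set (Fin n → ℂ)) (v : Fin N → AbsoluteValue ℂ ℝ) (B : ℝ)
    (e : Fin N × Fin n → ℤ) : Prop :=
  ∀ g : Fin n → ℂ, (∀ j, g j ≠ 0) → (∀ i j, |Real.log (v i (g j)) - e (i, j)| ≤ B) →
    NoAtypicalWithin v B (AlmostAllSUnitTranslates.translate g V)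

/-- passage from the counting theorem to a sparse set -/
theorem sparse {n N : ℕ} (hn : 1 ≤ n) (t : ℕ) (ht : (t : ℝ) ≤ (n : ℝ) * N + n - 1)
    (P : Set (Fin N × Fin n → ℤ)) (c0 : ℕ)
    (hc : ∀ R : ℕ, 1 ≤ R → ∃ E : Finset (Fin N → Fin n → ℤ),
      E.card * (2 * R + 1) ^ t ≤ c0 * (2 * R + 1) ^ (n * N + n - 1) ∧
      ∀ e ∈ P, (∀ i, |e i| ≤ R) → (fun i j => e (i, j)) ∈ E) :
    Sparse P ((n : ℝ) * N + n - 1 - t) := by
  classical
  have hs : 0 ≤ (n : ℝ) * N + n - 1 - t := by linarith
  have hM : ((n * N + n - 1 : ℕ) : ℝ) = (n : ℝ) * N + n - 1 := by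
    rw [Nat.cast_sub (by omega)]
    push_cast
    ring
  intro ε hε
  refine ⟨c0 * 3 ^ ((n : ℝ) * N + n - 1 - t), fun R hR => ?_⟩
  obtain ⟨E, hE, hPE⟩ := hc R hR
  have hR1 : (1 : ℝ) ≤ R := by exact_mod_cast hR
  have h0 : {w | w ∈ P ∧ size w ≤ R} ⊆ ((E.image fun e (q : Fin N × Fin n) => e q.1 q.2 : Finset _) : Set _) := by
    rintro w ⟨hw, hwR⟩
    rw [Finset.mem_coe, Finset.mem_image]
    refine ⟨fun i j => w (i, j), hPE w hw fun i => ?_, rfl⟩
    have := (natAbs_le w i).trans hwR
    rw [Int.abs_eq_natAbs]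
    exact_mod_cast this
  have h1 : ({w | w ∈ P ∧ size w ≤ R}.ncard : ℝ) ≤ E.card := by
    have := Set.ncard_le_ncard h0 (Finset.finite_toSet _)
    rw [Set.ncard_coe_finset] at this
    exact_mod_cast this.trans Finset.card_image_le
  have h2 : (E.card : ℝ) * (2 * (R : ℝ) + 1) ^ t ≤ c0 * (2 * (R : ℝ) + 1) ^ (n * N + n - 1) := by
    exact_mod_cast hE
  have hbase : (0 : ℝ) < 2 * (R : ℝ) + 1 := by positivity
  have h3 : (2 * (R : ℝ) + 1) ^ (n * N + n - 1) =
      (2 * (R : ℝ) + 1) ^ ((n : ℝ) * N + n - 1 - t) * (2 * (R : ℝ) + 1) ^ t := by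
    rw [← Real.rpow_natCast _ (n * N + n - 1), ← Real.rpow_natCast _ t, ← Real.rpow_add hbase, hM]
    congr 1
    ring
  rw [h3, ← mul_assoc] at h2
  have h4 := le_of_mul_le_mul_right h2 (by positivity)
  refine h1.trans (h4.trans ?_)
  rw [mul_assoc]
  apply mul_le_mul_of_nonneg_left _ (Nat.cast_nonneg _)
  calc (2 * (R : ℝ) + 1) ^ ((n : ℝ) * N + n - 1 - t) ≤ (3 * (R : ℝ)) ^ ((n : ℝ) * N + n - 1 - t) :=
        Real.rpow_le_rpow hbase.le (by linarith) hs
    _ = 3 ^ ((n : ℝ) * N + n - 1 - t) * (R : ℝ) ^ ((n : ℝ) * N + n - 1 - t) :=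
        Real.mul_rpow (by norm_num) (by linarith)
    _ ≤ 3 ^ ((n : ℝ) * N + n - 1 - t) * (R : ℝ) ^ ((n : ℝ) * N + n - 1 - t + ε) := by
        apply mul_le_mul_of_nonneg_left _ (by positivity)
        exact Real.rpow_le_rpow_of_exponent_le hR1 (by linarith)

theorem good_of_isEmpty {κ : Type} [Fintype κ] [IsEmpty κ] (Good : (κ → ℤ) → Prop) (s : ℝ) :
    GoodAtSmallValues Good s := by
  intro m θ y _ _
  refine Filter.Eventually.of_forall fun A => ?_
  convert Set.finite_empty
  rw [Set.eq_empty_iff_forall_notMem]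
  rintro w ⟨hw, -⟩
  exact hw (Subsingleton.elim _ _)

/-- **Theorem.** Let `V` be an irreducible subvariety of the torus `(ℂ^×)^n`. There is a number `K` such that for all `N`
and `t` with `K t < N` and `s = n N + n - 1 - t`:
(1) for distinct primes `p_i`, `i < N`, the property of an integral matrix `e` that the translate of `V` by the vector
`(∏_i p_i ^ e_ij)_j` has no atypical subvariety holds at the small values of generic linear forms, exponent `s`;
(2) for all absolute values `v_i`, `i < N`, of `ℂ` and all `B`, the property that for ALL `g` in `(ℂ^×)^n` with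
`|log v_i(g_j) - e_ij| ≤ B` the translate `g V` has no atypical intersection with a coset bounded by `B` holds at the
small values of generic linear forms, exponent `s`. -/
theorem result (n : ℕ) (V : Set (Fin n → ℂ)) (hV : (idealOf V).IsPrime) : ∃ K : ℕ, ∀ N t : ℕ, K * t < N →
    (∀ p : Fin N → ℕ, (∀ i, (p i).Prime) → Function.Injective p →
      GoodAtSmallValues (GoodTranslate V p) ((n : ℝ) * N + n - 1 - t)) ∧
    (∀ (v : Fin N → AbsoluteValue ℂ ℝ) (B : ℝ),
      GoodAtSmallValues (GoodNear V v B) ((n : ℝ) * N + n - 1 - t)) := by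
  classical
  obtain ⟨K, hK⟩ := AlmostAllSUnitTranslates.result n V hV
  refine ⟨K + 1, fun N t hNt => ?_⟩
  obtain ⟨h2, h1⟩ := hK N t (by nlinarith)
  rcases Nat.eq_zero_or_pos n with hn | hn
  · subst hn
    exact ⟨fun p _ _ => good_of_isEmpty _ _, fun v B => good_of_isEmpty _ _⟩
  have hn1 : (1 : ℝ) ≤ n := by exact_mod_cast hn
  have htN : (t : ℝ) ≤ N := by
    have : t ≤ N := by nlinarith
    exact_mod_cast this
  have hN0 : (0 : ℝ) ≤ N := Nat.cast_nonneg N
  have ht : (t : ℝ) ≤ (n : ℝ) * N + n - 1 := by nlinarith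
  constructor
  · intro p hp hpi
    obtain ⟨c0, hc0⟩ := h2 p hp hpi
    refine good_of_sparse _ (by linarith) (sparse hn t ht _ c0 fun R hR => ?_)
    have hfin : {e : Fin N → Fin n → ℤ | (∀ i j, |e i j| ≤ R) ∧
        ¬ NoAtypicalSubvariety (AlmostAllSUnitTranslates.translate (fun j => ∏ i, (p i : ℂ) ^ e i j) V)}.Finite := by
      apply Set.Finite.subset (Set.finite_Icc (fun (_ : Fin N) (_ : Fin n) => -(R : ℤ)) (fun _ _ => (R : ℤ)))
      rintro e ⟨he, -⟩
      exact ⟨fun i j => (abs_le.1 (he i j)).1, fun i j => (abs_le.1 (he i j)).2⟩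
    refine ⟨hfin.toFinset, ?_, fun e he heR => ?_⟩
    · rw [← Set.ncard_eq_toFinset_card _ hfin, ← Nat.card_coe_set_eq]
      exact hc0 R hR
    · rw [Set.Finite.mem_toFinset]
      exact ⟨fun i j => heR (i, j), he⟩
  · intro v B
    obtain ⟨c0, hc0⟩ := h1 v B
    refine good_of_sparse _ (by linarith) (sparse hn t ht _ c0 fun R hR => ?_)
    obtain ⟨E, hE1, hE2⟩ := hc0 R hR
    refine ⟨E, hE1, fun e he heR => ?_⟩
    by_contra hcon
    exact he (hE2 (fun i j => e (i, j)) (fun i j => heR (i, j)) hcon)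

end Pool.Agent.Results.MP_b7926e_nt.SmallLinearForms
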