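import Pool.Agent.Results.MP_b7926e_nt.AlmostAllSUnitTranslates
import Pool.Agent.X174.WinFamC

/-!
# ALL translates of a subvariety of the torus by points whose logarithmic vectors lie in cubes around thin sequences

Let `V` be an arbitrary irreducible subvariety of the torus `(ℂ^×)^n`. There is a number `K` such that for all `N`, `t` with
`K t < N`, every sequence `r ≥ 1` of exponent of convergence at most `τ` (for `r_k = k ^ a` this is `1 / a`, for
`r_k = b ^ k` it is `0`) and `0 ≤ ρ < 1`: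

(1) for all absolute values `v_1, …, v_N` of `ℂ`, outside ONE set of real matrices `x ∈ ℝ^(nN)` of Hausdorff dimension at
most `(n N + n - 1 - t + τ) / (1 - ρ)`, for all `B` and `c`, for all but finitely many `k` and ALL points `g ∈ (ℂ^×)^n` with
`|log v_i(g_j) - x_ij r_k| ≤ c r_k ^ ρ` for all `i`, `j`, the translate `g V` has no atypical intersection with a coset
bounded by `B` (in particular with a torsion coset);

(2) for all distinct primes `p_1, …, p_N`, outside ONE set of `x ∈ ℝ^(nN)` of Hausdorff dimension at most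
`(n N + n - 1 - t + τ) / (1 - ρ)`, for all `c`, for all but finitely many `k` and ALL integral matrices `e` with
`|e_ij - x_ij r_k| ≤ c r_k ^ ρ`, the translate of `V` by the vector `(∏_i p_i ^ e_ij)_j` has no atypical subvariety.

The number of exceptions is from the starting result `AlmostAllSUnitTranslates`.
-/

set_option autoImplicit false

namespace Pool.Agent.Results.MP_b7926e_nt.TranslatesInCubes

open Pool.Agent.Results.MP_b7926e_nt.NoAtypical (idealOf NoAtypicalSubvariety)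
open Pool.Agent.Results.MP_b7926e_nt.AlmostAllSUnitTranslates (NoAtypicalWithin)

/-- the exponent of convergence of the sequence `v` is at most `τ` -/
def ExpLe (v : ℕ → ℝ) (τ : ℝ) : Prop := ∀ t : ℝ, τ < t → Summable (fun n : ℕ => (v n) ^ (-t))

/-- passage from counting to cubes -/
theorem cubes {n N : ℕ} (hn : 1 ≤ n) (t : ℕ) (ht : (t : ℝ) ≤ (n : ℝ) * N + n - 1)
    (Exc : ℕ → Set (Fin N → Fin n → ℤ)) (c0 : ℕ) (hfin : ∀ R, (Exc R).Finite)
    (hc : ∀ R : ℕ, 1 ≤ R → (Exc R).ncard * (2 * R + 1) ^ t ≤ c0 * (2 * R + 1) ^ (n * N + n - 1))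
    (r : ℕ → ℝ) (τ ρ : ℝ) (hr : ∀ i, 1 ≤ r i) (hτ : 0 ≤ τ) (hE : ExpLe r τ) (hρ : ρ < 1) :
    ∃ E : Set (Fin N × Fin n → ℝ), dimH E ≤ ENNReal.ofReal (((n : ℝ) * N + n - 1 - t + τ) / (1 - ρ)) ∧
      ∀ x : Fin N × Fin n → ℝ, x ∉ E → ∀ c : ℝ, ∃ k₀ : ℕ, ∀ k : ℕ, k₀ ≤ k →
        ∀ e : Fin N → Fin n → ℤ, (∀ i j, |(e i j : ℝ) - x (i, j) * r k| ≤ c * (r k) ^ ρ) →
          ∃ R : ℕ, 1 ≤ R ∧ (∀ i j, |e i j| ≤ R) ∧ e ∉ Exc R := by
  have hs : 0 ≤ (n : ℝ) * N + n - 1 - t := by linarith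
  have hM : ((n * N + n - 1 : ℕ) : ℝ) = (n : ℝ) * N + n - 1 := by
    rw [Nat.cast_sub (by omega)]
    push_cast
    ring
  obtain ⟨E, hE1, hE2⟩ := Pool.Agent.X174.winFamC (κ := Fin N × Fin n) (Q := Fin N → Fin n → ℤ)
    (fun e p => (e p.1 p.2 : ℝ)) (fun T => Exc ⌊T⌋₊) (s := (n : ℝ) * N + n - 1 - t)
    (C := c0 * 3 ^ ((n : ℝ) * N + n - 1 - t)) hs
    (fun T hT => by
      have hT1 : 1 ≤ ⌊T⌋₊ := Nat.le_floor (by exact_mod_cast hT)
      refine ⟨hfin _, ?_⟩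
      have h1 := hc ⌊T⌋₊ hT1
      have h2 : ((Exc ⌊T⌋₊).ncard : ℝ) * (2 * (⌊T⌋₊ : ℝ) + 1) ^ t ≤ c0 * (2 * (⌊T⌋₊ : ℝ) + 1) ^ (n * N + n - 1) := by
        exact_mod_cast h1
      have hbase : (0 : ℝ) < 2 * (⌊T⌋₊ : ℝ) + 1 := by positivity
      have h3 : (2 * (⌊T⌋₊ : ℝ) + 1) ^ (n * N + n - 1) =
          (2 * (⌊T⌋₊ : ℝ) + 1) ^ ((n : ℝ) * N + n - 1 - t) * (2 * (⌊T⌋₊ : ℝ) + 1) ^ t := by
        rw [← Real.rpow_natCast _ (n * N + n - 1), ← Real.rpow_natCast _ t, ← Real.rpow_add hbase, hM]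
        congr 1
        ring
      rw [h3, ← mul_assoc] at h2
      have h4 := le_of_mul_le_mul_right h2 (by positivity)
      refine h4.trans ?_
      rw [mul_assoc]
      apply mul_le_mul_of_nonneg_left _ (Nat.cast_nonneg _)
      rw [← Real.mul_rpow (by norm_num) (by linarith)]
      apply Real.rpow_le_rpow hbase.le _ hs
      have := Nat.floor_le (show (0 : ℝ) ≤ T by linarith)
      linarith)
    hr hτ hE hρ
  refine ⟨E, hE1, fun x hx c => ?_⟩
  obtain ⟨R, hR, hRc⟩ := Pool.Agent.X174.le_of_cubeC x c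
  obtain ⟨k₀, hk₀⟩ := hE2 x hx R hR c
  refine ⟨k₀, fun k hk e he => ?_⟩
  have hR1 : (1 : ℝ) ≤ R := by exact_mod_cast hR
  have he' : ∀ p : Fin N × Fin n, |(e p.1 p.2 : ℝ) - x p * r k| ≤ c * (r k) ^ ρ := fun p => he p.1 p.2
  refine ⟨⌊(R : ℝ) * r k⌋₊, Nat.le_floor (by push_cast; nlinarith [hr k]), fun i j => ?_, hk₀ k hk e he'⟩
  have h3 := hRc (fun p => (e p.1 p.2 : ℝ)) (r k) ρ (hr k) hρ he' (i, j)
  simp only at h3
  rw [Int.abs_eq_natAbs]
  have h4 : (((e i j).natAbs : ℕ) : ℝ) ≤ R * r k := by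
    rw [Nat.cast_natAbs, Int.cast_abs]
    exact h3
  exact_mod_cast Nat.le_floor h4

/-- **Theorem.** Let `V` be an irreducible subvariety of the torus `(ℂ^×)^n`. There is a number `K` such that for all `N`
and `t` with `K t < N`, every sequence `r ≥ 1` of exponent of convergence at most `τ ≥ 0` and every `0 ≤ ρ < 1`:
(1) for all absolute values `v_i`, `i < N`, of `ℂ` there is a set `E ⊂ ℝ^(nN)` of Hausdorff dimension at most
`(n N + n - 1 - t + τ) / (1 - ρ)` such that for `x` outside `E` and all real `B`, `c`, for all but finitely many `k`: for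
ALL `g` in `(ℂ^×)^n` with `|log v_i(g_j) - x_ij r_k| ≤ c r_k ^ ρ` for all `i`, `j`, the translate `g V` has no atypical
intersection with a coset bounded by `B`;
(2) for all distinct primes `p_i`, `i < N`, there is a set `E ⊂ ℝ^(nN)` of Hausdorff dimension at most
`(n N + n - 1 - t + τ) / (1 - ρ)` such that for `x` outside `E` and all real `c`, for all but finitely many `k`: for ALL
integral matrices `e` with `|e_ij - x_ij r_k| ≤ c r_k ^ ρ` for all `i`, `j`, the translate of `V` by the vector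
`(∏_i p_i ^ e_ij)_j` has no atypical subvariety.
The sequences `(i + 1) ^ a` and `b ^ i` have exponent of convergence at most `1 / a` and `0`. -/
theorem result :
    (∀ (n : ℕ) (V : Set (Fin n → ℂ)), (idealOf V).IsPrime → ∃ K : ℕ, ∀ N t : ℕ, K * t < N →
      ∀ (r : ℕ → ℝ) (τ ρ : ℝ), (∀ i, 1 ≤ r i) → 0 ≤ τ → ExpLe r τ → 0 ≤ ρ → ρ < 1 →
      (∀ v : Fin N → AbsoluteValue ℂ ℝ, ∃ E : Set (Fin N × Fin n → ℝ),
        dimH E ≤ ENNReal.ofReal (((n : ℝ) * N + n - 1 - t + τ) / (1 - ρ)) ∧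
        ∀ x : Fin N × Fin n → ℝ, x ∉ E → ∀ B c : ℝ, ∃ k₀ : ℕ, ∀ k : ℕ, k₀ ≤ k →
          ∀ g : Fin n → ℂ, (∀ j, g j ≠ 0) → (∀ i j, |Real.log (v i (g j)) - x (i, j) * r k| ≤ c * (r k) ^ ρ) →
            NoAtypicalWithin v B (AlmostAllSUnitTranslates.translate g V)) ∧
      (∀ p : Fin N → ℕ, (∀ i, (p i).Prime) → Function.Injective p → ∃ E : Set (Fin N × Fin n → ℝ),
        dimH E ≤ ENNReal.ofReal (((n : ℝ) * N + n - 1 - t + τ) / (1 - ρ)) ∧
        ∀ x : Fin N × Fin n → ℝ, x ∉ E → ∀ c : ℝ, ∃ k₀ : ℕ, ∀ k : ℕ, k₀ ≤ k →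
          ∀ e : Fin N → Fin n → ℤ, (∀ i j, |(e i j : ℝ) - x (i, j) * r k| ≤ c * (r k) ^ ρ) →
            NoAtypicalSubvariety (AlmostAllSUnitTranslates.translate (fun j => ∏ i, (p i : ℂ) ^ e i j) V))) ∧
    (∀ a : ℝ, 0 < a → ExpLe (fun n : ℕ => ((n : ℝ) + 1) ^ a) (1 / a)) ∧
    (∀ b : ℝ, 1 < b → ExpLe (fun n : ℕ => b ^ n) 0) := by
  refine ⟨fun n V hV => ?_, fun κ hκ => Pool.Agent.Y854.GM.expLe_pow κ hκ,
    fun b hb => Pool.Agent.Y854.GM.expLe_geom b hb⟩
  obtain ⟨K, hK⟩ := AlmostAllSUnitTranslates.result n V hV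
  refine ⟨K + 1, fun N t hNt r τ ρ hr hτ hE hρ0 hρ => ?_⟩
  obtain ⟨h2, h1⟩ := hK N t (by nlinarith)
  rcases Nat.eq_zero_or_pos n with hn | hn
  · -- `ℝ ^ 0` is a point
    subst hn
    have hdim : ∀ a : ℝ, dimH (Set.univ : Set (Fin N × Fin 0 → ℝ)) ≤ ENNReal.ofReal a := fun a => by
      rw [(Set.subsingleton_univ : (Set.univ : Set (Fin N × Fin 0 → ℝ)).Subsingleton).dimH_zero]
      exact zero_le
    exact ⟨fun v => ⟨Set.univ, hdim _, fun x hx => absurd (Set.mem_univ x) hx⟩,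
      fun p _ _ => ⟨Set.univ, hdim _, fun x hx => absurd (Set.mem_univ x) hx⟩⟩
  have hn1 : (1 : ℝ) ≤ n := by exact_mod_cast hn
  have htN : (t : ℝ) ≤ N := by
    have : t ≤ N := by nlinarith
    exact_mod_cast this
  have hN0 : (0 : ℝ) ≤ N := Nat.cast_nonneg N
  have ht : (t : ℝ) ≤ (n : ℝ) * N + n - 1 := by nlinarith
  constructor
  · intro v
    have key : ∀ b : ℕ, ∃ E : Set (Fin N × Fin n → ℝ),
        dimH E ≤ ENNReal.ofReal (((n : ℝ) * N + n - 1 - t + τ) / (1 - ρ)) ∧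
        ∀ x : Fin N × Fin n → ℝ, x ∉ E → ∀ c : ℝ, ∃ k₀ : ℕ, ∀ k : ℕ, k₀ ≤ k →
          ∀ g : Fin n → ℂ, (∀ j, g j ≠ 0) → (∀ i j, |Real.log (v i (g j)) - x (i, j) * r k| ≤ c * (r k) ^ ρ) →
            NoAtypicalWithin v ((b : ℝ) + 1) (AlmostAllSUnitTranslates.translate g V) := by
      intro b
      obtain ⟨c0, hc0⟩ := h1 v ((b : ℝ) + 1)
      have hch : ∀ R : ℕ, ∃ E : Finset (Fin N → Fin n → ℤ), 1 ≤ R →
          E.card * (2 * R + 1) ^ t ≤ c0 * (2 * R + 1) ^ (n * N + n - 1) ∧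
          ∀ e : Fin N → Fin n → ℤ, (∀ i j, |e i j| ≤ R) → e ∉ E →
            ∀ g : Fin n → ℂ, (∀ j, g j ≠ 0) →
              (∀ i j, |Real.log (v i (g j)) - e i j| ≤ (b : ℝ) + 1) →
                NoAtypicalWithin v ((b : ℝ) + 1) (AlmostAllSUnitTranslates.translate g V) := by
        intro R
        by_cases hR : 1 ≤ R
        · obtain ⟨E, hE⟩ := hc0 R hR
          exact ⟨E, fun _ => hE⟩
        · exact ⟨∅, fun h => absurd h hR⟩
      choose F hF using hch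
      obtain ⟨E, hE1, hE2⟩ := cubes hn t ht (fun R => (F R : Set (Fin N → Fin n → ℤ))) c0
        (fun R => (F R).finite_toSet) (fun R hR => by
          rw [Set.ncard_coe_finset]
          exact (hF R hR).1) r τ ρ hr hτ hE hρ
      refine ⟨E, hE1, fun x hx c => ?_⟩
      obtain ⟨k₀, hk₀⟩ := hE2 x hx (|c| + 1)
      refine ⟨k₀, fun k hk g hg hgx => ?_⟩
      have hround : ∀ i j, |(round (Real.log (v i (g j))) : ℝ) - x (i, j) * r k| ≤ (|c| + 1) * (r k) ^ ρ := by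
        intro i j
        have h5 := abs_sub_round (Real.log (v i (g j)))
        have h6 : 1 ≤ (r k) ^ ρ := Real.one_le_rpow (hr k) hρ0
        have h7 : c * (r k) ^ ρ ≤ |c| * (r k) ^ ρ := mul_le_mul_of_nonneg_right (le_abs_self c) (by positivity)
        calc |(round (Real.log (v i (g j))) : ℝ) - x (i, j) * r k|
            ≤ |(round (Real.log (v i (g j))) : ℝ) - Real.log (v i (g j))| +
              |Real.log (v i (g j)) - x (i, j) * r k| := abs_sub_le _ _ _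
          _ ≤ 1 / 2 + c * (r k) ^ ρ := by
              rw [abs_sub_comm] at h5
              exact add_le_add h5 (hgx i j)
          _ ≤ _ := by linarith
      obtain ⟨R, hR1, hR2, hR3⟩ := hk₀ k hk (fun i j => round (Real.log (v i (g j)))) hround
      refine (hF R hR1).2 _ hR2 (by simpa using hR3) g hg fun i j => ?_
      have h5 := abs_sub_round (Real.log (v i (g j)))
      have h6 : (0 : ℝ) ≤ b := Nat.cast_nonneg b
      linarith
    choose Es hEs1 hEs2 using key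
    refine ⟨⋃ b, Es b, ?_, fun x hx B c => ?_⟩
    · rw [dimH_iUnion]
      exact iSup_le hEs1
    · obtain ⟨b, hb⟩ := exists_nat_ge B
      obtain ⟨k₀, hk₀⟩ := hEs2 b x (fun hm => hx (Set.mem_iUnion.2 ⟨_, hm⟩)) c
      refine ⟨k₀, fun k hk g hg hgx M η hη hηB A hA hAc hAp => hk₀ k hk g hg hgx M η hη (fun i j => ?_) A hA hAc hAp⟩
      exact (hηB i j).trans (by linarith)
  · intro p hp hpi
    obtain ⟨c0, hc0⟩ := h2 p hp hpi
    obtain ⟨E, hE1, hE2⟩ := cubes hn t ht (fun R => {e : Fin N → Fin n → ℤ | (∀ i j, |e i j| ≤ R) ∧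
        ¬ NoAtypicalSubvariety (AlmostAllSUnitTranslates.translate (fun j => ∏ i, (p i : ℂ) ^ e i j) V)}) c0
      (fun R => by
        apply Set.Finite.subset (Set.finite_Icc (fun (_ : Fin N) (_ : Fin n) => -(R : ℤ)) (fun _ _ => (R : ℤ)))
        rintro e ⟨he, -⟩
        exact ⟨fun i j => (abs_le.1 (he i j)).1, fun i j => (abs_le.1 (he i j)).2⟩)
      (fun R hR => by
        rw [← Nat.card_coe_set_eq]
        exact hc0 R hR) r τ ρ hr hτ hE hρ
    refine ⟨E, hE1, fun x hx c => ?_⟩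
    obtain ⟨k₀, hk₀⟩ := hE2 x hx c
    refine ⟨k₀, fun k hk e he => ?_⟩
    obtain ⟨R, hR1, hR2, hR3⟩ := hk₀ k hk e he
    by_contra hcon
    exact hR3 ⟨hR2, hcon⟩

end Pool.Agent.Results.MP_b7926e_nt.TranslatesInCubes
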