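import Pool.Agent.Results.MP_b7926e_nt.AlmostAllSUnitTranslates
import Pool.Agent.X123.ML.Vec

/-!
# ALL translates of a subvariety of the torus by the `S`-unit points near almost all points of the torus

Let `V` be an arbitrary irreducible subvariety of the torus `(ℂ^×)^n`. There is a number `K` such that for all `N`, `t` with
`K t < N` and all sets of `N` primes: for all real vectors `z` outside a set of Hausdorff dimension at most
`(n N + n - 1 - t) / τ`, for ALL but finitely many `S`-unit points `g = (∏_i p_i ^ e_ij)_j` with `|z - g| ≤ |e| ^ (-τ)` the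
translate `g V` has no atypical subvariety. The same holds for the `g` near `z` in any other metric sense (for example
`q`-adically, for almost every point of `ℚ_q^n`), and for arbitrary absolute values in place of the primes.
-/

set_option autoImplicit false

open scoped ENNReal

namespace Pool.Agent.Results.MP_b7926e_nt.TranslatesNearTargets

open MeasureTheory Pool.Agent.X123.ML
open Pool.Agent.Results.MP_b7926e_nt.NoAtypical (idealOf NoAtypicalSubvariety)
open Pool.Agent.Results.MP_b7926e_nt.AlmostAllSUnitTranslates (NoAtypicalWithin)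

/-- **Theorem.** Let `V` be an irreducible subvariety of the torus `(ℂ^×)^n`. There is a number `K` such that for all `N` and
`t` with `K t < N`: let `p_i`, `i < N`, be distinct primes, `s` a map from the integral matrices `e` to a metric space and
`τ > 0`. (1) There is a set `E` of Hausdorff dimension at most `(n N + n - 1 - t) / τ` such that for each `z` outside `E`, for all
but finitely many integral matrices `e` with `dist(z, s(e)) ≤ |e| ^ (-τ)`, `|e| = max |e_ij|`, the translate of `V` by the vector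
`(∏_i p_i ^ e_ij)_j` has no atypical subvariety. (2) If `n N + n - 1 - t < n τ`, then for almost all `z` in `ℝ^n`, for all but
finitely many `e` with `|z_j - ∏_i p_i ^ e_ij| ≤ |e| ^ (-τ)` for all `j`, the translate of `V` by this vector has no atypical
subvariety. (3) Let `v_i`, `i < N`, be absolute values of `ℂ` and `B` real. There is a set `E` of Hausdorff dimension at most
`(n N + n - 1 - t) / τ` such that for each `z` outside `E` and all but finitely many `e` with `dist(z, s(e)) ≤ |e| ^ (-τ)`: for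
ALL `g` in `(ℂ^×)^n` with `|log v_i(g_j) - e_ij| ≤ B` for all `i`, `j` the translate `g V` has no atypical intersection with a
coset bounded by `B`. -/
theorem result (n : ℕ) (V : Set (Fin n → ℂ)) (hV : (idealOf V).IsPrime) :
    ∃ K : ℕ, ∀ N t : ℕ, K * t < N →
      (∀ p : Fin N → ℕ, (∀ i, (p i).Prime) → Function.Injective p →
        (∀ (M : Type) [MetricSpace M] (s : (Fin N → Fin n → ℤ) → M) (τ : ℝ), 0 < τ →
          ∃ E : Set M, dimH E ≤ ENNReal.ofReal (((n : ℝ) * N + n - 1 - t) / τ) ∧ ∀ z : M, z ∉ E →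
            {e : Fin N → Fin n → ℤ | dist z (s e) ≤ ‖e‖ ^ (-τ) ∧
              ¬ NoAtypicalSubvariety (AlmostAllSUnitTranslates.translate (fun j => ∏ i, (p i : ℂ) ^ e i j) V)}.Finite) ∧
        ∀ τ : ℝ, 0 < τ → (n : ℝ) * N + n - 1 - t < n * τ → ∀ᵐ z : Fin n → ℝ,
          {e : Fin N → Fin n → ℤ | (∀ j, |z j - ∏ i, (p i : ℝ) ^ e i j| ≤ ‖e‖ ^ (-τ)) ∧
            ¬ NoAtypicalSubvariety (AlmostAllSUnitTranslates.translate (fun j => ∏ i, (p i : ℂ) ^ e i j) V)}.Finite) ∧
      ∀ (v : Fin N → AbsoluteValue ℂ ℝ) (B : ℝ) (M : Type) [MetricSpace M]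
        (s : (Fin N → Fin n → ℤ) → M) (τ : ℝ), 0 < τ →
        ∃ E : Set M, dimH E ≤ ENNReal.ofReal (((n : ℝ) * N + n - 1 - t) / τ) ∧ ∀ z : M, z ∉ E →
          {e : Fin N → Fin n → ℤ | dist z (s e) ≤ ‖e‖ ^ (-τ) ∧
            ¬ ∀ g : Fin n → ℂ, (∀ j, g j ≠ 0) → (∀ i j, |Real.log (v i (g j)) - e i j| ≤ B) →
              NoAtypicalWithin v B (AlmostAllSUnitTranslates.translate g V)}.Finite := by
  obtain ⟨K, hK⟩ := AlmostAllSUnitTranslates.result n V hV
  refine ⟨K + 1, fun N t hNt => ?_⟩
  obtain ⟨h1, h2⟩ := hK N t (by nlinarith)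
  rcases Nat.eq_zero_or_pos n with hn | hn
  · -- there is one matrix
    subst hn
    exact ⟨fun p _ _ => ⟨fun M _ s τ _ => ⟨∅, by simp, fun z _ => Set.toFinite _⟩,
      fun τ _ _ => Filter.Eventually.of_forall fun z => Set.toFinite _⟩,
      fun v B M _ s τ _ => ⟨∅, by simp, fun z _ => Set.toFinite _⟩⟩
  have hn1 : (1 : ℝ) ≤ n := by exact_mod_cast hn
  have htN : t ≤ N := by nlinarith
  have htM : t ≤ n * N + n - 1 := by
    have : N ≤ n * N := Nat.le_mul_of_pos_left N hn
    omega
  have hM : ((n * N + n - 1 : ℕ) : ℝ) = (n : ℝ) * N + n - 1 := by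
    rw [Nat.cast_sub (by omega)]
    push_cast
    ring
  have h0 : (0 : ℝ) ≤ (n : ℝ) * N + n - 1 - t := by
    rw [← hM]
    have : (t : ℝ) ≤ ((n * N + n - 1 : ℕ) : ℝ) := by exact_mod_cast htM
    linarith
  refine ⟨fun p hp hinj => ?_, fun v B M _ s τ hτ => ?_⟩
  · obtain ⟨c, hc⟩ := h1 p hp hinj
    have hcount := mat_count {e : Fin N → Fin n → ℤ |
      ¬ NoAtypicalSubvariety (AlmostAllSUnitTranslates.translate (fun j => ∏ i, (p i : ℂ) ^ e i j) V)} htM (c := c) hc
    rw [hM] at hcount
    refine ⟨fun M _ s τ hτ => ?_, fun τ hτ hτ2 => ?_⟩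
    · obtain ⟨E, hE, hE2⟩ := near (I := Unit) (fun _ => {e : Fin N → Fin n → ℤ |
        ¬ NoAtypicalSubvariety (AlmostAllSUnitTranslates.translate (fun j => ∏ i, (p i : ℂ) ^ e i j) V)})
        (fun e => ‖e‖) h0 hτ (fun _ => hcount) s
      exact ⟨E, hE, fun z hz => (hE2 z hz ()).subset fun e he => ⟨he.2, he.1⟩⟩
    · have hrank : (Module.finrank ℝ (Fin n → ℝ) : ℝ) = n := by simp
      have h3 := near_ae (I := Unit) (volume : Measure (Fin n → ℝ)) (fun _ => {e : Fin N → Fin n → ℤ |
        ¬ NoAtypicalSubvariety (AlmostAllSUnitTranslates.translate (fun j => ∏ i, (p i : ℂ) ^ e i j) V)})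
        (fun e => ‖e‖) h0 hτ (by rw [hrank]; linarith) (fun _ => hcount)
        (fun e j => ∏ i, (p i : ℝ) ^ e i j)
      filter_upwards [h3] with z hz
      refine (hz ()).subset fun e he => ⟨he.2, ?_⟩
      rw [dist_pi_le_iff (Real.rpow_nonneg (norm_nonneg _) _)]
      intro j
      rw [Real.dist_eq]
      exact he.1 j
  · obtain ⟨c, hc⟩ := h2 v B
    have hcount := mat_count {e : Fin N → Fin n → ℤ |
      ¬ ∀ g : Fin n → ℂ, (∀ j, g j ≠ 0) → (∀ i j, |Real.log (v i (g j)) - e i j| ≤ B) →
        NoAtypicalWithin v B (AlmostAllSUnitTranslates.translate g V)} htM (c := c) (fun R hR => by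
        obtain ⟨E, hE1, hE2⟩ := hc R hR
        refine le_trans (Nat.mul_le_mul_right _ ?_) hE1
        have h5 : {e : Fin N → Fin n → ℤ | (∀ i j, |e i j| ≤ (R : ℤ)) ∧
            e ∈ {e : Fin N → Fin n → ℤ | ¬ ∀ g : Fin n → ℂ, (∀ j, g j ≠ 0) →
              (∀ i j, |Real.log (v i (g j)) - e i j| ≤ B) → NoAtypicalWithin v B (AlmostAllSUnitTranslates.translate g V)}} ⊆
              (E : Set (Fin N → Fin n → ℤ)) := by
          intro e he
          by_contra hcon
          exact he.2 (hE2 e he.1 hcon)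
        have h6 := Set.ncard_le_ncard h5 E.finite_toSet
        rw [Set.ncard_coe_finset] at h6
        exact h6)
    rw [hM] at hcount
    obtain ⟨E, hE, hE2⟩ := near (I := Unit) (fun _ => {e : Fin N → Fin n → ℤ |
      ¬ ∀ g : Fin n → ℂ, (∀ j, g j ≠ 0) → (∀ i j, |Real.log (v i (g j)) - e i j| ≤ B) →
        NoAtypicalWithin v B (AlmostAllSUnitTranslates.translate g V)})
      (fun e => ‖e‖) h0 hτ (fun _ => hcount) s
    exact ⟨E, hE, fun z hz => (hE2 z hz ()).subset fun e he => ⟨he.2, he.1⟩⟩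

end Pool.Agent.Results.MP_b7926e_nt.TranslatesNearTargets
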